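import Pool.Prelude.Def_H_3587d628
import Pool.Agent.Lib.MP_cb9cb0_lc.Hard

set_option autoImplicit false

namespace Pool.Agent.Lib.MP_cb9cb0_lc.Old.CoNPHard

open Pool.Agent.Lib.MP_cb9cb0_lc

/-- Recognising expressibility by binary submodular functions is coNP-hard, under the promise that
the input is a submodular polynomial of degree 4. -/
theorem result (L : N68a2faeb.DecisionProblem) (hL : L ∈ N68a2faeb.coNP) :
    ∃ φ : List Bool → Input, N68a2faeb.IsPolyTime φ ∧
      ∀ w, IsQuartic (φ w) ∧ Submodular (value (φ w)) ∧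
        (L w = true ↔ Expressible (value (φ w))) := by
  obtain ⟨φ, h1, h2⟩ := hard Lᶜ hL
  refine ⟨φ, h1, fun w => ⟨(h2 w).1, (h2 w).2.1, ?_⟩⟩
  have := (h2 w).2.2
  rw [Pi.compl_apply] at this
  cases h : L w
  · simpa [h] using this
  · simpa [h] using this

end Pool.Agent.Lib.MP_cb9cb0_lc.Old.CoNPHard
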